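import Pool.Agent.W250.RS.Stm

/-!
Counting lemmas for project RS.
-/

set_option autoImplicit false

open Finset

namespace Pool.Agent.W346.RS

open Pool.Agent.W250.RS

/-- counting functions by their restriction to an injective tuple of indices -/
theorem count_restrict {α ι : Type} [DecidableEq α] [Fintype ι] [DecidableEq ι] (X : Finset α)
    (N : ℕ) (e : ι → Fin N) (he : Function.Injective e) (H : Finset (ι → α))
    (hH : ∀ h ∈ H, ∀ j, h j ∈ X) :
    ((tup X N).filter (fun f => f ∘ e ∈ H)).card * X.card ^ (Fintype.card ι) =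
      H.card * X.card ^ N := by
  have h1 : ((tup X N).filter (fun f => f ∘ e ∈ H)).card =
      ∑ h ∈ H, (((tup X N).filter (fun f => f ∘ e ∈ H)).filter (fun f => f ∘ e = h)).card := by
    refine Finset.card_eq_sum_card_fiberwise fun f hf => ?_
    exact (mem_filter.1 hf).2
  have h2 : ∀ h ∈ H, (((tup X N).filter (fun f => f ∘ e ∈ H)).filter (fun f => f ∘ e = h)).card *
      X.card ^ (Fintype.card ι) = X.card ^ N := by
    intro h hh
    have h3 : ((tup X N).filter (fun f => f ∘ e ∈ H)).filter (fun f => f ∘ e = h) =
        Fintype.piFinset (fun i : Fin N => X.filter (fun a => ∀ j, e j = i → a = h j)) := by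
      ext f
      simp only [mem_filter, tup, Fintype.mem_piFinset]
      constructor
      · rintro ⟨⟨hf, -⟩, hfe⟩ i
        refine ⟨hf i, fun j hj => ?_⟩
        rw [← hj, ← hfe]
        rfl
      · intro hf
        have hfe : f ∘ e = h := by
          funext j
          exact (hf (e j)).2 j rfl
        exact ⟨⟨fun i => (hf i).1, hfe ▸ hh⟩, hfe⟩
    have h4 : ∀ i : Fin N, (X.filter (fun a => ∀ j, e j = i → a = h j)).card =
        if i ∈ univ.image e then 1 else X.card := by
      intro i
      split_ifs with hi
      · obtain ⟨j, -, rfl⟩ := mem_image.1 hi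
        have h5 : X.filter (fun a => ∀ j', e j' = e j → a = h j') = {h j} := by
          ext a
          simp only [mem_filter, mem_singleton]
          constructor
          · rintro ⟨-, ha⟩
            exact ha j rfl
          · rintro rfl
            exact ⟨hH h hh j, fun j' hj' => by rw [he hj']⟩
        rw [h5, card_singleton]
      · congr 1
        refine filter_true_of_mem fun a _ j hj => ?_
        exact absurd (mem_image.2 ⟨j, mem_univ _, hj⟩) hi
    rw [h3, Fintype.card_piFinset]
    simp only [h4]
    rw [prod_ite, prod_const_one, one_mul, prod_const, ← pow_add]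
    congr 1
    have h6 : (univ.filter fun i => i ∉ univ.image e).card = N - Fintype.card ι := by
      have h7 : (univ.filter fun i => i ∉ univ.image e) = (univ.image e)ᶜ := by
        ext i
        simp
      rw [h7, card_compl, Fintype.card_fin, card_image_of_injective _ he, card_univ]
    have h8 : Fintype.card ι ≤ N := by
      have := Fintype.card_le_of_injective e he
      rwa [Fintype.card_fin] at this
    rw [h6]
    omega
  rw [h1, sum_mul, sum_congr rfl h2, sum_const, smul_eq_mul]

theorem c1 : S_C1 := by
  intro α _ X k N G ι hG hι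
  have h := count_restrict X N ι hι G (fun h hh j => by
    have h1 := hG hh
    rw [tup, Fintype.mem_piFinset] at h1
    exact h1 j)
  rwa [Fintype.card_fin] at h

theorem c2 : S_C2 := by
  intro α β _ _ X k N K G g ι ι' hG hK hι hι' hne
  have hGX : ∀ x ∈ G, ∀ j, x j ∈ X := by
    intro x hx
    have h1 := hG hx
    rw [tup, Fintype.mem_piFinset] at h1
    exact h1
  let e : Fin k ⊕ Fin k → Fin N := Sum.elim ι ι'
  have he : Function.Injective e := by
    rintro (i | i) (j | j) hij
    · exact congrArg Sum.inl (hι hij)
    · exact absurd hij (hne i j)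
    · exact absurd hij.symm (hne j i)
    · exact congrArg Sum.inr (hι' hij)
  let H : Finset (Fin k ⊕ Fin k → α) := (Fintype.piFinset fun _ => X).filter
    (fun h => h ∘ Sum.inl ∈ G ∧ h ∘ Sum.inr ∈ G ∧ g (h ∘ Sum.inr) = g (h ∘ Sum.inl))
  have hH : ∀ h ∈ H, ∀ j, h j ∈ X := by
    intro h hh
    exact Fintype.mem_piFinset.1 (mem_filter.1 hh).1
  have h1 := count_restrict X N e he H hH
  have h2 : (tup X N).filter (fun f => f ∘ e ∈ H) =
      (tup X N).filter (fun f => f ∘ ι ∈ G ∧ f ∘ ι' ∈ G ∧ g (f ∘ ι') = g (f ∘ ι)) := by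
    refine filter_congr fun f hf => ?_
    have hf' : ∀ i, f i ∈ X := by
      rw [tup, Fintype.mem_piFinset] at hf
      exact hf
    have e1 : (f ∘ e) ∘ Sum.inl = f ∘ ι := rfl
    have e2 : (f ∘ e) ∘ Sum.inr = f ∘ ι' := rfl
    rw [mem_filter, e1, e2]
    constructor
    · exact fun h => h.2
    · exact fun h => ⟨Fintype.mem_piFinset.2 fun j => hf' _, h⟩
  have h3 : H.card ≤ G.card * K := by
    have h4 : H.card ≤ (G.sigma fun x => G.filter (fun y => g y = g x)).card := by
      refine Finset.card_le_card_of_injOn (fun h => ⟨h ∘ Sum.inl, h ∘ Sum.inr⟩) ?_ ?_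
      · intro h hh
        obtain ⟨-, a1, a2, a3⟩ := mem_filter.1 hh
        rw [Finset.mem_coe, mem_sigma]
        exact ⟨a1, mem_filter.2 ⟨a2, a3⟩⟩
      · intro h _ h' _ hhh
        have b1 : h ∘ Sum.inl = h' ∘ Sum.inl := congrArg (fun z => z.1) hhh
        have b2 : h ∘ Sum.inr = h' ∘ Sum.inr := by
          simp only [Sigma.mk.injEq] at hhh
          exact eq_of_heq hhh.2
        funext i
        rcases i with i | i
        · exact congrFun b1 i
        · exact congrFun b2 i
    refine h4.trans ?_
    rw [card_sigma]
    calc ∑ x ∈ G, (G.filter (fun y => g y = g x)).card ≤ ∑ _x ∈ G, K :=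
          sum_le_sum fun x hx => hK x hx
      _ = G.card * K := by rw [sum_const, smul_eq_mul]
  rw [h2, Fintype.card_sum, Fintype.card_fin, ← two_mul] at h1
  rw [h1]
  exact Nat.mul_le_mul_right _ h3

theorem c3 : S_C3 := by
  intro α β _ _ X k N G g ι ι' l hG hc hι hι' hne
  have h1 := c1 α X k N G ι hG hι
  have h2 : ((tup X N).filter
      (fun f => f ∘ ι ∈ G ∧ f ∘ ι' ∈ G ∧ g (f ∘ ι') = g (f ∘ ι))).card * X.card ≤
      ((tup X N).filter (fun f => f ∘ ι ∈ G)).card := by
    rw [← card_product]
    refine Finset.card_le_card_of_injOn (fun p => Function.update p.1 (ι' l) p.2) ?_ ?_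
    · rintro ⟨f, a⟩ hp
      obtain ⟨hf, ha⟩ := mem_product.1 (Finset.mem_coe.1 hp)
      obtain ⟨hf1, hf2, -, -⟩ := mem_filter.1 hf
      rw [Finset.mem_coe, mem_filter]
      constructor
      · rw [tup, Fintype.mem_piFinset] at hf1 ⊢
        intro i
        show Function.update f (ι' l) a i ∈ X
        by_cases hi : i = ι' l
        · rw [hi, Function.update_self]
          exact ha
        · rw [Function.update_of_ne hi]
          exact hf1 i
      · have : Function.update f (ι' l) a ∘ ι = f ∘ ι := by
          funext j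
          show Function.update f (ι' l) a (ι j) = f (ι j)
          rw [Function.update_of_ne (hne j)]
        show Function.update f (ι' l) a ∘ ι ∈ G
        rw [this]
        exact hf2
    · rintro ⟨f, a⟩ hp ⟨f', a'⟩ hp' hpp
      have hupd : Function.update f (ι' l) a = Function.update f' (ι' l) a' := hpp
      obtain ⟨hf, -⟩ := mem_product.1 (Finset.mem_coe.1 hp)
      obtain ⟨hf', -⟩ := mem_product.1 (Finset.mem_coe.1 hp')
      obtain ⟨-, -, b1, b2⟩ := mem_filter.1 hf
      obtain ⟨-, -, b1', b2'⟩ := mem_filter.1 hf'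
      have haa : a = a' := by
        have := congrFun hupd (ι' l)
        rwa [Function.update_self, Function.update_self] at this
      have hoff : ∀ i, i ≠ ι' l → f i = f' i := by
        intro i hi
        have := congrFun hupd i
        rwa [Function.update_of_ne hi, Function.update_of_ne hi] at this
      have hι2 : f ∘ ι = f' ∘ ι := by
        funext j
        exact hoff _ (hne j)
      have hι3 : f ∘ ι' = f' ∘ ι' := by
        refine hc _ b1 _ b1' l (fun j hj => ?_) ?_
        · exact hoff _ (fun h => hj (hι' h))
        · rw [b2, b2', hι2]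
      have hff : f = f' := by
        funext i
        by_cases hi : i = ι' l
        · rw [hi]
          exact congrFun hι3 l
        · exact hoff i hi
      rw [hff, haa]
  calc ((tup X N).filter
      (fun f => f ∘ ι ∈ G ∧ f ∘ ι' ∈ G ∧ g (f ∘ ι') = g (f ∘ ι))).card * X.card ^ (k + 1)
      = ((tup X N).filter
        (fun f => f ∘ ι ∈ G ∧ f ∘ ι' ∈ G ∧ g (f ∘ ι') = g (f ∘ ι))).card * X.card *
          X.card ^ k := by rw [pow_succ]; ring
    _ ≤ ((tup X N).filter (fun f => f ∘ ι ∈ G)).card * X.card ^ k :=
        Nat.mul_le_mul_right _ h2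
    _ = G.card * X.card ^ N := h1

end Pool.Agent.W346.RS
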